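import Pool.Agent.Helper45.U4.St1

/-!
# Project U4 (MP_a1f43d_co): module HRS (residues)
-/

set_option autoImplicit false

open Module Classical
open scoped LinearAlgebra.Projectivization

namespace Pool.Agent.Helper52.U4

open Pool.Agent.Helper45.U4 Pool.Agent.Helper53.PB

theorem hHRS : StHRS := by
  intro F V _ _ _ _ φ r h v w hv hw
  have hres := resForm_isRes φ hv hw
  have hgen := hres.gen_finrank (r := r) h.gen
  have hdim := finrank_perp2 φ hv hw
  refine ⟨⟨?_, h.card, ?_, hgen⟩, ?_⟩
  · unfold resForm
    rw [Form.restrict_kind]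
    exact h.kind
  · have := h.dim
    omega
  · intro U hU hvU
    set ι := (perp2 φ v w).subtype with hι
    have hUr := h.gen U hU
    have hY : finrank F (U.comap ι) = r := by
      have h1 : ¬ U ≤ LinearMap.ker (φ.toPolar.f w) := fun hle => hres.pair (hle hvU)
      have h2 := Polar.finrank_inf_ker U (φ.toPolar.f w) h1
      rw [hUr] at h2
      have h3 : (U.comap ι).map ι = U ⊓ LinearMap.ker (φ.toPolar.f w) := by
        rw [Submodule.map_comap_eq, hres.range]
        apply le_antisymm
        · rintro x ⟨⟨_, h4⟩, h5⟩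
          exact ⟨h5, h4⟩
        · rintro x ⟨h4, h5⟩
          exact ⟨⟨hU.1.2 v hvU x h4, h5⟩, h4⟩
      rw [(Submodule.equivMapOfInjective ι hres.inj (U.comap ι)).finrank_eq, h3]
      omega
    have hYts : (resForm φ hv hw).toPolar.TS (U.comap ι) := by
      constructor
      · intro x hx
        exact (hres.sing x).2 (hU.1.1 _ hx)
      · intro x hx y hy
        exact (hres.perp x y).2 (hU.1.2 _ hx _ hy)
    refine ⟨U.comap ι, Polar.gen_of_finrank hgen hYts hY, ?_⟩
    refine Submodule.eq_of_le_of_finrank_eq ?_ ?_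
    · intro x hx
      obtain ⟨u, hu, c, rfl⟩ := IsRes.mem_lift.1 hx
      exact Submodule.add_mem _ hu (Submodule.smul_mem _ _ hvU)
    · rw [hres.finrank_lift, hY, hUr]

end Pool.Agent.Helper52.U4
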